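import Pool.Agent.Helper92.GB.Theta

/-!
# The exponents of MP_b6b996_nt: zeros, pairs and the sup norm, in the abstract
-/

set_option autoImplicit false

namespace Pool.Agent.Helper80.ZP

open Finset

/-- The exponent obtained from the half plane `Re s > a`. -/
noncomputable def h (a : ℝ) : ℝ := max a (min ((13 + 4 * a) / 20) (43 / 54))

/-- The exponent obtained from the half plane and the two point correlations. -/
noncomputable def g (a c : ℝ) : ℝ :=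
  min ((1 + c) / 2) (max ((1 + 3 * c) / (2 + 3 * c)) (max ((a + (1 + 4 * c) / (2 + 3 * c)) / 2) ((1 + 2 * a) / 3)))

/-- The bound with the exponents `s` and `t`. -/
def Bound (F : ℕ → ℝ → ℂ) (s t : ℝ) : Prop :=
  ∀ ε : ℝ, 0 < ε → ∃ C : ℝ, ∀ (N : ℕ) (x : ℝ) (b : ℤ) (q : ℕ), 1 ≤ N → 1 ≤ q → IsCoprime b (q : ℤ) →
    |x - b / q| ≤ 1 / (q : ℝ) ^ 2 →
      ‖F N x‖ ≤ C * (N : ℝ) ^ ε *
        min (min (N / Real.sqrt q + (N : ℝ) ^ (43 / 54 : ℝ)) ((N : ℝ) ^ s) + Real.sqrt (q * N)) ((N : ℝ) ^ t)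

lemma three_le_h {a : ℝ} (ha : 1 / 2 ≤ a) : 3 / 4 ≤ h a := by
  unfold h
  exact le_max_of_le_right (le_min (by linarith) (by norm_num))

lemma g_nonneg {a c : ℝ} (ha : 0 ≤ a) (hc : 0 ≤ c) : 0 ≤ g a c := by
  unfold g
  refine le_min (by linarith) (le_max_of_le_right (le_max_of_le_right (by linarith)))

lemma h_one : h 1 = 1 := by
  unfold h
  exact max_eq_left (min_le_of_right_le (by norm_num))

lemma g_one : g 1 1 = 1 := by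
  unfold g
  norm_num

lemma g_half : g (1 / 2) (1 / 2) = 5 / 7 := by
  unfold g
  norm_num

lemma h_big {a : ℝ} (ha : 43 / 54 ≤ a) : h a = a := by
  unfold h
  exact max_eq_left (min_le_of_right_le ha)

/-- Dirichlet's approximation in the form used here. -/
lemma dirichlet (x : ℝ) (N : ℕ) (hN : 1 ≤ N) : ∃ (b : ℤ) (q : ℕ), 1 ≤ q ∧ IsCoprime b (q : ℤ) ∧
    |x - b / q| ≤ 1 / (q : ℝ) ^ 2 ∧ Real.sqrt (q * N) ≤ (N : ℝ) ^ (3 / 4 : ℝ) := by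
  have hN0 : (0 : ℝ) < N := by exact_mod_cast hN
  have hs : 0 < Nat.sqrt N := Nat.sqrt_pos.2 hN
  obtain ⟨r, hr1, hr2⟩ := Real.exists_rat_abs_sub_le_and_den_le x hs
  refine ⟨r.num, r.den, r.den_pos, Rat.isCoprime_num_den r, ?_, ?_⟩
  · have h1 : ((r.num : ℝ) / (r.den : ℝ)) = (r : ℝ) := by
      rw [← Rat.cast_def]
    rw [h1]
    refine hr1.trans ?_
    have hd : (0 : ℝ) < r.den := by exact_mod_cast r.den_pos
    have h2 : (r.den : ℝ) ≤ Nat.sqrt N := by exact_mod_cast hr2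
    apply one_div_le_one_div_of_le (by positivity)
    rw [sq]
    exact mul_le_mul_of_nonneg_right (by linarith) hd.le
  · have h2 : (r.den : ℝ) ≤ Real.sqrt N := by
      have h3 : (r.den : ℝ) ≤ Nat.sqrt N := by exact_mod_cast hr2
      exact h3.trans Real.nat_sqrt_le_real_sqrt
    rw [Real.sqrt_eq_rpow] at h2
    have h4 : (r.den : ℝ) * N ≤ (N : ℝ) ^ (3 / 2 : ℝ) := by
      calc (r.den : ℝ) * N ≤ (N : ℝ) ^ (1 / 2 : ℝ) * N := mul_le_mul_of_nonneg_right h2 hN0.le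
        _ = (N : ℝ) ^ (1 / 2 : ℝ) * (N : ℝ) ^ (1 : ℝ) := by rw [Real.rpow_one]
        _ = _ := by
          rw [← Real.rpow_add hN0]
          norm_num
    calc Real.sqrt (r.den * N) ≤ Real.sqrt ((N : ℝ) ^ (3 / 2 : ℝ)) := Real.sqrt_le_sqrt h4
      _ = (N : ℝ) ^ (3 / 4 : ℝ) := by
        rw [Real.sqrt_eq_rpow, ← Real.rpow_mul hN0.le]
        norm_num

/-- The bound gives a uniform exponent. -/
lemma bound_unif {F : ℕ → ℝ → ℂ} {s t : ℝ} (hs : 3 / 4 ≤ s) (hB : Bound F s t) :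
    ∀ ε : ℝ, 0 < ε → ∃ C : ℝ, ∀ N : ℕ, 1 ≤ N → ∀ x : ℝ, ‖F N x‖ ≤ C * (N : ℝ) ^ (min s t + ε) := by
  intro ε hε
  obtain ⟨C, hC⟩ := hB ε hε
  refine ⟨2 * |C|, fun N hN x => ?_⟩
  have hN0 : (0 : ℝ) < N := by exact_mod_cast hN
  have hN1 : (1 : ℝ) ≤ N := by exact_mod_cast hN
  obtain ⟨b, q, hq, hb, hx, hsq⟩ := dirichlet x N hN
  refine (hC N x b q hN hq hb hx).trans ?_
  have e1 : (N : ℝ) ^ min s t = min ((N : ℝ) ^ s) ((N : ℝ) ^ t) := by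
    rcases le_total s t with h | h
    · rw [min_eq_left h, min_eq_left (Real.rpow_le_rpow_of_exponent_le hN1 h)]
    · rw [min_eq_right h, min_eq_right (Real.rpow_le_rpow_of_exponent_le hN1 h)]
  have hs0 : 0 < (N : ℝ) ^ s := Real.rpow_pos_of_pos hN0 s
  have ht0 : 0 < (N : ℝ) ^ t := Real.rpow_pos_of_pos hN0 t
  have h1 : min (min (N / Real.sqrt q + (N : ℝ) ^ (43 / 54 : ℝ)) ((N : ℝ) ^ s) + Real.sqrt (q * N)) ((N : ℝ) ^ t) ≤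
      2 * (N : ℝ) ^ min s t := by
    rw [e1]
    rcases le_total ((N : ℝ) ^ s) ((N : ℝ) ^ t) with h | h
    · rw [min_eq_left h]
      refine (min_le_left _ _).trans ?_
      have h2 : (N : ℝ) ^ (3 / 4 : ℝ) ≤ (N : ℝ) ^ s := Real.rpow_le_rpow_of_exponent_le hN1 hs
      have h3 := min_le_right (N / Real.sqrt q + (N : ℝ) ^ (43 / 54 : ℝ)) ((N : ℝ) ^ s)
      linarith
    · rw [min_eq_right h]
      refine (min_le_right _ _).trans ?_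
      linarith
  have hm : 0 ≤ min (min (N / Real.sqrt q + (N : ℝ) ^ (43 / 54 : ℝ)) ((N : ℝ) ^ s) + Real.sqrt (q * N)) ((N : ℝ) ^ t) := by
    positivity
  calc C * (N : ℝ) ^ ε *
        min (min (N / Real.sqrt q + (N : ℝ) ^ (43 / 54 : ℝ)) ((N : ℝ) ^ s) + Real.sqrt (q * N)) ((N : ℝ) ^ t)
      ≤ |C| * (N : ℝ) ^ ε *
        min (min (N / Real.sqrt q + (N : ℝ) ^ (43 / 54 : ℝ)) ((N : ℝ) ^ s) + Real.sqrt (q * N)) ((N : ℝ) ^ t) := by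
        gcongr
        exact le_abs_self C
    _ ≤ |C| * (N : ℝ) ^ ε * (2 * (N : ℝ) ^ min s t) := by gcongr
    _ = 2 * |C| * (N : ℝ) ^ (min s t + ε) := by
        rw [Real.rpow_add hN0]
        ring

/-- The combination. -/
theorem combine {F : ℕ → ℝ → ℂ} {ZF PB : ℝ → Prop} {θ : ℝ}
    (H : ∀ a c : ℝ, 1 / 2 ≤ a → a ≤ 1 → 1 / 2 ≤ c → c ≤ 1 →
      (ZF a → PB c → Bound F (h a) (g a c)) ∧ (Bound F a c → ZF (min a c)))
    (hZ1 : ZF 1) (hP1 : PB 1) (hZm : ∀ a b, a ≤ b → ZF a → ZF b) (hPm : ∀ a b, a ≤ b → PB a → PB b)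
    (hZi : ∀ a, (∀ b, a < b → ZF b) → ZF a) (hPi : ∀ a, (∀ b, a < b → PB b) → PB a)
    (hθ1 : 1 / 2 ≤ θ) (hθ2 : θ ≤ 1)
    (hθ3 : ∀ b : ℝ, 0 ≤ b →
      (∀ ε : ℝ, 0 < ε → ∃ C : ℝ, ∀ N : ℕ, 1 ≤ N → ∀ x : ℝ, ‖F N x‖ ≤ C * (N : ℝ) ^ (b + ε)) → θ ≤ b)
    (hθ4 : ∀ ε : ℝ, 0 < ε → ∃ C : ℝ, ∀ N : ℕ, 1 ≤ N → ∀ x : ℝ, ‖F N x‖ ≤ C * (N : ℝ) ^ (θ + ε)) :
    IsLeast {a | 1 / 2 ≤ a ∧ ZF a} (sInf {a | 1 / 2 ≤ a ∧ ZF a}) ∧
    IsLeast {c | 1 / 2 ≤ c ∧ PB c} (sInf {c | 1 / 2 ≤ c ∧ PB c}) ∧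
    sInf {a | 1 / 2 ≤ a ∧ ZF a} ≤ 1 ∧ sInf {c | 1 / 2 ≤ c ∧ PB c} ≤ 1 ∧
    sInf {a | 1 / 2 ≤ a ∧ ZF a} ≤ θ ∧
    θ ≤ min (h (sInf {a | 1 / 2 ≤ a ∧ ZF a})) (g (sInf {a | 1 / 2 ≤ a ∧ ZF a}) (sInf {c | 1 / 2 ≤ c ∧ PB c})) := by
  have least : ∀ Q : ℝ → Prop, Q 1 → (∀ a b, a ≤ b → Q a → Q b) → (∀ a, (∀ b, a < b → Q b) → Q a) →
      IsLeast {a | 1 / 2 ≤ a ∧ Q a} (sInf {a | 1 / 2 ≤ a ∧ Q a}) ∧ sInf {a | 1 / 2 ≤ a ∧ Q a} ≤ 1 := by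
    intro Q hQ1 hQm hQi
    have hbd : BddBelow {a | 1 / 2 ≤ a ∧ Q a} := ⟨1 / 2, fun a ha => ha.1⟩
    have hne : {a | 1 / 2 ≤ a ∧ Q a}.Nonempty := ⟨1, by norm_num, hQ1⟩
    refine ⟨⟨⟨le_csInf hne fun a ha => ha.1, hQi _ fun b hb => ?_⟩, fun a ha => csInf_le hbd ha⟩,
      csInf_le hbd ⟨by norm_num, hQ1⟩⟩
    obtain ⟨a, ha, hab⟩ := exists_lt_of_csInf_lt hne hb
    exact hQm a b hab.le ha.2
  obtain ⟨hZ2, hZ3⟩ := least ZF hZ1 hZm hZi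
  obtain ⟨hP2, hP3⟩ := least PB hP1 hPm hPi
  refine ⟨hZ2, hP2, hZ3, hP3, ?_, ?_⟩
  · refine hZ2.2 ⟨hθ1, ?_⟩
    have h11 := (H 1 1 (by norm_num) le_rfl (by norm_num) le_rfl).1 hZ1 hP1
    rw [h_one, g_one] at h11
    have h1t : Bound F 1 θ := by
      intro ε hε
      obtain ⟨C1, h1⟩ := h11 ε hε
      obtain ⟨C2, h2⟩ := hθ4 ε hε
      refine ⟨max |C1| |C2|, fun N x b q hN hq hb hx => ?_⟩
      have hN0 : (0 : ℝ) < N := by exact_mod_cast hN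
      have h3 := h1 N x b q hN hq hb hx
      have h4 := h2 N hN x
      rw [Real.rpow_add hN0] at h4
      have h5 : C1 ≤ max |C1| |C2| := (le_abs_self _).trans (le_max_left _ _)
      have h6 : C2 ≤ max |C1| |C2| := (le_abs_self _).trans (le_max_right _ _)
      have hM : 0 ≤ max |C1| |C2| := le_max_of_le_left (abs_nonneg _)
      rw [mul_min_of_nonneg _ _ (by positivity)]
      refine le_min ?_ ?_
      · refine h3.trans ?_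
        calc C1 * (N : ℝ) ^ ε *
              min (min (N / Real.sqrt q + (N : ℝ) ^ (43 / 54 : ℝ)) ((N : ℝ) ^ (1 : ℝ)) + Real.sqrt (q * N))
                ((N : ℝ) ^ (1 : ℝ))
            ≤ max |C1| |C2| * (N : ℝ) ^ ε *
              min (min (N / Real.sqrt q + (N : ℝ) ^ (43 / 54 : ℝ)) ((N : ℝ) ^ (1 : ℝ)) + Real.sqrt (q * N))
                ((N : ℝ) ^ (1 : ℝ)) := by gcongr
          _ ≤ _ := by
              gcongr
              exact min_le_left _ _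
      · refine h4.trans ?_
        calc C2 * ((N : ℝ) ^ θ * (N : ℝ) ^ ε) = C2 * (N : ℝ) ^ ε * (N : ℝ) ^ θ := by ring
          _ ≤ _ := by gcongr
    have h7 := (H 1 θ (by norm_num) le_rfl hθ1 hθ2).2 h1t
    rwa [min_eq_right hθ2] at h7
  · have hB := (H _ _ hZ2.1.1 hZ3 hP2.1.1 hP3).1 hZ2.1.2 hP2.1.2
    refine hθ3 _ (le_min ?_ ?_) (bound_unif (three_le_h hZ2.1.1) hB)
    · linarith [three_le_h hZ2.1.1]
    · exact g_nonneg (by linarith [hZ2.1.1]) (by linarith [hP2.1.1])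

end Pool.Agent.Helper80.ZP
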